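import Pool.Agent.H74.G.R_seed8.H718R2.K0

open scoped Manifold ContDiff Topology NNReal
open Set

namespace Pool.Agent.H718R2.G

namespace K5a

/-- smooth perturbations of the identity by a `1/2`-Lipschitz map are diffeomorphisms. -/
theorem perturb {n : ℕ} (g : V n → V n) (hg : ContDiff ℝ ∞ g) {K : ℝ≥0} (hK : K ≤ 1 / 2)
    (hl : LipschitzWith K g) :
    ∃ F : V n ≃ₜ V n, ContDiff ℝ ∞ F ∧ ContDiff ℝ ∞ F.symm ∧ ∀ v, F v = v + g v := by
  set f : V n → V n := fun v => v + g v with hf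
  have hfs : ContDiff ℝ ∞ f := contDiff_id.add hg
  have hA : ApproximatesLinearOn f ((ContinuousLinearEquiv.refl ℝ (V n) : V n ≃L[ℝ] V n) :
      V n →L[ℝ] V n) univ K := by
    intro x _ y _
    have : f x - f y - ((ContinuousLinearEquiv.refl ℝ (V n) : V n ≃L[ℝ] V n) :
        V n →L[ℝ] V n) (x - y) = g x - g y := by
      simp only [hf, ContinuousLinearEquiv.coe_coe, ContinuousLinearEquiv.coe_refl']
      simp only [id]
      abel
    rw [this]
    exact hl.norm_sub_le x y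
  have hc : Subsingleton (V n) ∨ K <
      ‖(((ContinuousLinearEquiv.refl ℝ (V n) : V n ≃L[ℝ] V n).symm : V n ≃L[ℝ] V n) :
        V n →L[ℝ] V n)‖₊⁻¹ := by
    rcases subsingleton_or_nontrivial (V n) with h | h
    · exact Or.inl h
    · right
      have h1 : ‖(((ContinuousLinearEquiv.refl ℝ (V n) : V n ≃L[ℝ] V n).symm : V n ≃L[ℝ] V n) :
          V n →L[ℝ] V n)‖₊ = 1 := by
        have : (((ContinuousLinearEquiv.refl ℝ (V n) : V n ≃L[ℝ] V n).symm : V n ≃L[ℝ] V n) :
            V n →L[ℝ] V n) = ContinuousLinearMap.id ℝ (V n) := rfl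
        rw [this]
        apply NNReal.coe_injective
        rw [coe_nnnorm]
        exact ContinuousLinearMap.norm_id
      rw [h1, inv_one]
      refine lt_of_le_of_lt hK ?_
      rw [div_lt_one (by norm_num)]
      norm_num
  let H : V n ≃ₜ V n := hA.toHomeomorph f hc
  have hH : ⇑H = f := rfl
  have hD : ∀ a : V n, ∃ e : V n ≃L[ℝ] V n, HasFDerivAt f (e : V n →L[ℝ] V n) a := by
    intro a
    have hga : HasFDerivAt g (fderiv ℝ g a) a :=
      (hg.differentiable (by simp)).differentiableAt.hasFDerivAt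
    have hn : ‖fderiv ℝ g a‖ ≤ 1 / 2 := by
      have h1 := norm_fderiv_le_of_lipschitz ℝ hl (x₀ := a)
      refine h1.trans ?_
      have : (K : ℝ) ≤ ((1 / 2 : ℝ≥0) : ℝ) := by exact_mod_cast hK
      simpa using this
    have hn' : ‖-fderiv ℝ g a‖ < 1 := by
      rw [norm_neg]
      linarith
    refine ⟨ContinuousLinearEquiv.unitsEquiv ℝ (V n) (Units.oneSub (-fderiv ℝ g a) hn'), ?_⟩
    have h1 : HasFDerivAt f (ContinuousLinearMap.id ℝ (V n) + fderiv ℝ g a) a :=
      (hasFDerivAt_id a).add hga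
    have h2 : ((ContinuousLinearEquiv.unitsEquiv ℝ (V n) (Units.oneSub (-fderiv ℝ g a) hn') :
        V n ≃L[ℝ] V n) : V n →L[ℝ] V n) = ContinuousLinearMap.id ℝ (V n) + fderiv ℝ g a := by
      apply ContinuousLinearMap.ext
      intro v
      change ((Units.oneSub (-fderiv ℝ g a) hn' : (V n →L[ℝ] V n)ˣ) : V n →L[ℝ] V n) v = _
      rw [Units.val_oneSub, sub_neg_eq_add]
      rfl
    rw [h2]
    exact h1
  choose e he using hD
  exact ⟨H, hfs, Homeomorph.contDiff_symm H (f₀' := e) he hfs, fun v => rfl⟩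

/-- local version in `ℝⁿ`: nearby points can be joined by a diffeomorphism supported in a small
ball. -/
theorem local_move {n : ℕ} (p0 : V n) {ρ : ℝ} (hρ : 0 < ρ) :
    ∃ δ > 0, ∀ w : V n, ‖w - p0‖ < δ → ∃ F : V n ≃ₜ V n, ContDiff ℝ ∞ F ∧
      ContDiff ℝ ∞ F.symm ∧ F p0 = w ∧ ∀ v ∉ Metric.closedBall p0 ρ, F v = v := by
  let β : ContDiffBump p0 := ⟨ρ / 2, ρ, by positivity, by linarith⟩
  have hβs : ContDiff ℝ ∞ (β : V n → ℝ) := β.contDiff
  obtain ⟨C, hC⟩ := ContDiff.lipschitzWith_of_hasCompactSupport (𝕂 := ℝ) (n := ∞)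
    β.hasCompactSupport hβs (by simp)
  refine ⟨1 / (2 * (C + 1)), by positivity, fun w hw => ?_⟩
  set g : V n → V n := fun v => β v • (w - p0) with hg
  have hgs : ContDiff ℝ ∞ g := hβs.smul contDiff_const
  have hgl : LipschitzWith (C * ‖w - p0‖₊) g := by
    refine LipschitzWith.of_dist_le_mul fun x y => ?_
    rw [dist_eq_norm, dist_eq_norm]
    have h1 : g x - g y = (β x - β y) • (w - p0) := by
      rw [hg]; simp only; rw [sub_smul]
    rw [h1, norm_smul]
    have h2 := hC.norm_sub_le x y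
    have h3 : ((C * ‖w - p0‖₊ : ℝ≥0) : ℝ) = C * ‖w - p0‖ := by simp
    rw [h3]
    calc ‖β x - β y‖ * ‖w - p0‖ ≤ (C * ‖x - y‖) * ‖w - p0‖ :=
          mul_le_mul_of_nonneg_right h2 (norm_nonneg _)
      _ = C * ‖w - p0‖ * ‖x - y‖ := by ring
  have hK : C * ‖w - p0‖₊ ≤ 1 / 2 := by
    rw [← NNReal.coe_le_coe]
    push_cast
    have hC0 : (0 : ℝ) ≤ C := C.coe_nonneg
    have h1 : ‖w - p0‖ * (2 * (C + 1)) < 1 := by
      rw [lt_div_iff₀ (by positivity)] at hw
      exact hw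
    have h2 : 0 ≤ ‖w - p0‖ := norm_nonneg _
    nlinarith
  obtain ⟨F, hF1, hF2, hF3⟩ := perturb g hgs hK hgl
  refine ⟨F, hF1, hF2, ?_, fun v hv => ?_⟩
  · rw [hF3, hg]
    simp only
    rw [β.one_of_mem_closedBall (Metric.mem_closedBall_self (by positivity))]
    rw [one_smul]
    abel
  · rw [hF3, hg]
    simp only
    have h0 : β v = 0 := by
      apply β.zero_of_le_dist
      have : ρ < dist v p0 := by
        by_contra h
        exact hv (Metric.mem_closedBall.mpr (not_lt.mp h))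
      exact this.le
    rw [h0, zero_smul, add_zero]

end K5a

/-! K5a -/
theorem exists_move {n : ℕ} {M : Type*} [TopologicalSpace M] [T2Space M] [ChartedSpace (V n) M]
    [IsManifold (𝓡 n) ∞ M] {U : Set M} (hU : IsOpen U) (hc : IsPreconnected U) {p q : M}
    (hp : p ∈ U) (hq : q ∈ U) :
    ∃ (h : DiffM n M ⊤) (S : Set M), IsCompact S ∧ S ⊆ U ∧ h p = q ∧ ∀ y ∉ S, h y = y := by
  refine hc.induction₂ (fun p q => ∃ (h : DiffM n M ⊤) (S : Set M), IsCompact S ∧ S ⊆ U ∧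
    h p = q ∧ ∀ y ∉ S, h y = y) ?_ ?_ ?_ hp hq
  · intro x hx
    refine nhdsWithin_le_nhds ?_
    set φ := chartAt (V n) x with hφdef
    have hφ : φ ∈ IsManifold.maximalAtlas (𝓡 n) ∞ M := IsManifold.chart_mem_maximalAtlas x
    have hxs : x ∈ φ.source := mem_chart_source _ x
    have hW : φ.target ∩ φ.symm ⁻¹' U ∈ 𝓝 (φ x) := by
      have h1 : IsOpen (φ.target ∩ φ.symm ⁻¹' U) := φ.isOpen_inter_preimage_symm hU
      refine h1.mem_nhds ⟨φ.map_source hxs, ?_⟩
      change φ.symm (φ x) ∈ U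
      rw [φ.left_inv hxs]
      exact hx
    obtain ⟨ρ, hρ, hball⟩ := Metric.nhds_basis_closedBall.mem_iff.mp hW
    obtain ⟨δ, hδ, hmove⟩ := K5a.local_move (φ x) hρ
    have hcont : ContinuousAt φ x := φ.continuousAt hxs
    have hnear : ∀ᶠ y in 𝓝 x, y ∈ φ.source ∧ ‖φ y - φ x‖ < δ := by
      have hb := hcont.eventually (Metric.ball_mem_nhds (φ x) hδ)
      filter_upwards [φ.open_source.mem_nhds hxs, hb] with y hy1 hy2
      refine ⟨hy1, ?_⟩
      rw [← dist_eq_norm]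
      exact hy2
    filter_upwards [hnear] with y hy
    obtain ⟨F, hF1, hF2, hF3, hF4⟩ := hmove (φ y) hy.2
    have hAt : Metric.closedBall (φ x) ρ ⊆ φ.target := fun v hv => (hball hv).1
    have hcomp : IsCompact (φ.symm '' Metric.closedBall (φ x) ρ) :=
      (isCompact_closedBall _ _).image_of_continuousOn (φ.continuousOn_symm.mono hAt)
    obtain ⟨Fm, hFm1, hFm2⟩ := transplant hφ hAt hcomp.isClosed F hF1 hF2 hF4
    refine ⟨Fm, _, hcomp, ?_, ?_, hFm2⟩
    · rintro _ ⟨v, hv, rfl⟩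
      exact (hball hv).2
    · rw [hFm1 x hxs, hF3, φ.left_inv hy.1]
  · rintro x y z hx hy hz ⟨h1, S1, hS1, hS1U, h1x, h1id⟩ ⟨h2, S2, hS2, hS2U, h2y, h2id⟩
    refine ⟨h1.trans h2, S1 ∪ S2, hS1.union hS2, union_subset hS1U hS2U, ?_, fun w hw => ?_⟩
    · rw [Diffeomorph.coe_trans, Function.comp_apply, h1x, h2y]
    · have hw1 : w ∉ S1 := fun h => hw (Or.inl h)
      have hw2 : w ∉ S2 := fun h => hw (Or.inr h)
      rw [Diffeomorph.coe_trans, Function.comp_apply, h1id w hw1, h2id w hw2]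
  · rintro x y hx hy ⟨h1, S1, hS1, hS1U, h1x, h1id⟩
    refine ⟨h1.symm, S1, hS1, hS1U, ?_, fun w hw => ?_⟩
    · rw [← h1x]
      exact h1.symm_apply_apply x
    · have := h1id w hw
      calc h1.symm w = h1.symm (h1 w) := by rw [this]
        _ = w := h1.symm_apply_apply w

end Pool.Agent.H718R2.G
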